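import Pool.Agent.Work.MP_2738db_nt_C.Interface
import Pool.Agent.Work.MP_2738db_nt_U_helper40.Base

/-!
Block SVO: the sieve for odd `c`, all exponents `k` at once.
-/

set_option autoImplicit false

namespace Pool.Agent.Work.MP_2738db_nt_C.helper40

open Finset Filter
open Pool.Agent.Work.MP_2738db_nt_U.helper40 (pow_red gcd_red)

/-- the values of `v` for fixed `u` -/
def VS (e : ℝ) (M u : ℕ) : Set ℕ :=
  {v : ℕ | 1 ≤ v ∧ v ≤ M ∧ u < v ∧ Nat.Coprime u v ∧ ¬ 2 ∣ u ∧ ¬ 2 ∣ v ∧ ∃ k l A : ℕ,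
    1 ≤ k ∧ l.Prime ∧ Real.log l ≤ Real.log M ^ (1 - e) ∧ EqO u v k l A}

/-- a natural number whose prime factors are all `2` divides `2 ^ M` if it is `≤ M` -/
lemma dvd_two_pow {g M : ℕ} (hg : 0 < g) (h : ∀ p : ℕ, p.Prime → p ∣ g → p = 2) (hM : g ≤ M) :
    g ∣ 2 ^ M := by
  have h1 : g = 2 ^ g.primeFactorsList.length := by
    have h2 := Nat.eq_prime_pow_of_unique_prime_dvd hg.ne' (p := 2) (fun {d} hd hdg => h d hd hdg)
    exact h2
  have h3 : g.primeFactorsList.length ≤ M := by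
    have h4 : g.primeFactorsList.length < 2 ^ g.primeFactorsList.length := Nat.lt_two_pow_self
    omega
  calc g = 2 ^ g.primeFactorsList.length := h1
    _ ∣ 2 ^ M := pow_dvd_pow 2 h3

/-- the sieved set attached to the parameters -/
noncomputable def FS (M u : ℕ) (Q : Finset ℕ) (l κ δ τ : ℕ) : Finset ℕ := by
  classical
  exact (Icc 1 M).filter (fun t => ∀ q ∈ Q, ∃ s : ZMod q,
    (t : ZMod q) ^ κ + (if τ = 0 then (u : ZMod q) ^ κ else - (u : ZMod q) ^ κ) = δ * s ^ l)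

lemma FS_card (hL : MP_2738db_nt_U.Stmt_Loc) {M u l κ δ τ : ℕ} {Q : Finset ℕ} {κ₀ : ℝ}
    (hSv : Sv M κ₀ Q) (hl : l.Prime) (hκ : 1 ≤ κ)
    (hQ : ∀ q ∈ Q, q.Prime ∧ ¬ q ∣ u ∧ ¬ q ∣ δ ∧ l ∣ q - 1 ∧ 400 * Nat.gcd κ (q - 1) ^ 2 ≤ q) :
    ((FS M u Q l κ δ τ).card : ℝ) ≤ (M : ℝ) ^ (1 - κ₀) := by
  classical
  have h := hSv (fun q x => ∃ s : ZMod q,
    x ^ κ + (if τ = 0 then (u : ZMod q) ^ κ else - (u : ZMod q) ^ κ) = δ * s ^ l) (by
      intro q hq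
      obtain ⟨hqp, hqu, hqδ, hlq, h400⟩ := hQ q hq
      have : Fact q.Prime := ⟨hqp⟩
      refine hL q l κ hqp hl hlq hκ h400 _ _ ?_ ?_
      · have h1 : (u : ZMod q) ^ κ ≠ 0 := by
          apply pow_ne_zero
          rwa [Ne, ZMod.natCast_eq_zero_iff]
        split_ifs
        · exact h1
        · exact neg_ne_zero.mpr h1
      · rwa [Ne, ZMod.natCast_eq_zero_iff])
  refine le_trans (le_of_eq ?_) h
  rw [← Set.ncard_coe_finset]
  congr 2
  ext t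
  simp only [FS, coe_filter, mem_Icc, Set.mem_ofPred_eq, and_assoc]

theorem vs_card (hG : Stmt_Gen) (hL : MP_2738db_nt_U.Stmt_Loc) (hR : Stmt_Red) (hN : Stmt_Ndl)
    (e : ℝ) (he0 : 0 < e) (he1 : e < 1) :
    ∃ κ : ℝ, 0 < κ ∧ κ < 1 / 10 ∧ ∃ M₀ : ℕ, ∀ M u : ℕ, M₀ ≤ M → 1 ≤ u →
      Real.log u ≤ Real.exp (Real.log M ^ (1 - e)) →
      ((VS e M u).ncard : ℝ) ≤ 2 * (M : ℝ) ^ (1 - 5 * κ) := by
  classical
  obtain ⟨κ, hκ0, hκ1, M₀, hG⟩ := hG e he0 he1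
  refine ⟨κ, hκ0, hκ1, max M₀ 3, ?_⟩
  intro M u hM hu hlu
  have hM0 : M₀ ≤ M := (le_max_left _ _).trans hM
  have hM3 : 3 ≤ M := (le_max_right _ _).trans hM
  have hMr : (3 : ℝ) ≤ M := by exact_mod_cast hM3
  have hM1 : (1 : ℝ) ≤ M := by linarith
  have hMpos : (0 : ℝ) < M := by linarith
  have hlM : 1 ≤ Real.log M := by
    rw [Real.le_log_iff_exp_le hMpos]
    have := Real.exp_one_lt_d9
    linarith
  obtain ⟨K, Q, L, hK, hLL, hQ, hkey⟩ := hG M u hM0 hu hlu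
  set W := Real.log M with hW
  -- the finite sets of the delta
  set DS : ℕ → ℕ → Set ℕ := fun l k₀ => {δ : ℕ | 1 ≤ δ ∧
      (∀ p : ℕ, p.Prime → p ∣ δ → p ∣ L l k₀) ∧ δ.factorization 2 < l ∧
      ∀ p : ℕ, p.Prime → p ≠ 2 → (δ.factorization p : ℝ) ≤ 2 * p * W} with hDS
  have hfin : ∀ l k₀ : ℕ, 1 ≤ l → l ≤ K → 1 ≤ k₀ → k₀ ≤ K → (DS l k₀).Finite := by
    intro l k₀ h1 h2 h3 h4
    exact (hN (L l k₀) l W (hLL l k₀ h1 h2 h3 h4).1 h1 hlM).1
  set Δ : ℕ → ℕ → Finset ℕ := fun l k₀ =>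
    if h : (DS l k₀).Finite then h.toFinset else ∅ with hΔ
  have hΔc : ∀ l k₀ : ℕ, 1 ≤ l → l ≤ K → 1 ≤ k₀ → k₀ ≤ K →
      ((Δ l k₀).card : ℝ) ≤ l * (L l k₀ * (3 * W) ^ (L l k₀).primeFactors.card) := by
    intro l k₀ h1 h2 h3 h4
    have h5 := (hN (L l k₀) l W (hLL l k₀ h1 h2 h3 h4).1 h1 hlM).2
    have hf := hfin l k₀ h1 h2 h3 h4
    have h6 : (Δ l k₀).card = (DS l k₀).ncard := by
      rw [hΔ]
      simp only [hf, dif_pos]
      exact (Set.ncard_eq_toFinset_card _ hf).symm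
    rw [h6]
    exact h5
  -- the good parameters
  set Good : ℕ → ℕ → ℕ → ℕ → Prop := fun l k₀ κ' δ => l.Prime ∧ 1 ≤ κ' ∧
    Sv M (10 * κ) (Q l k₀) ∧
    ∀ q ∈ Q l k₀, q.Prime ∧ ¬ q ∣ u ∧ ¬ q ∣ δ ∧ l ∣ q - 1 ∧ 400 * Nat.gcd κ' (q - 1) ^ 2 ≤ q
    with hGood
  set U : Finset ℕ := (Icc 1 K ×ˢ Icc 1 K).biUnion (fun p =>
    ((Icc 1 (L p.1 p.2) ×ˢ (Δ p.1 p.2 ×ˢ range 2)).filter
      (fun θ => Good p.1 p.2 θ.1 θ.2.1)).biUnion
      (fun θ => FS M u (Q p.1 p.2) p.1 θ.1 θ.2.1 θ.2.2)) with hU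
  have hsub : VS e M u ⊆ ↑U := by
    rintro v ⟨hv1, hvM, huv, hcop, h2u, h2v, k, l, A, hk, hl, hlog, hEq⟩
    have hcard1 : (((2 ^ M : ℕ).primeFactors.card : ℕ) : ℝ) ≤ Real.exp (Real.log M ^ (1 - e)) := by
      rw [Nat.primeFactors_prime_pow (by omega) Nat.prime_two]
      simp only [card_singleton, Nat.cast_one]
      apply Real.one_le_exp
      positivity
    obtain ⟨hlK, k₀, hk01, hk0K, h400, hSv⟩ := hkey l (2 ^ M) hl hlog Nat.one_le_two_pow hcard1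
    obtain ⟨hL1, hL2, hLb⟩ := hLL l k₀ hl.one_lt.le hlK hk01 hk0K
    set Λ := L l k₀ with hΛ
    have hlogv : Real.log v ≤ W := Real.log_le_log (by exact_mod_cast hv1) (by exact_mod_cast hvM)
    -- the relation with `b`
    have hrel : ∃ τ < 2, ∃ b δ B : ℕ, 1 ≤ b ∧ b ∣ k ∧
      (∀ p : ℕ, p.Prime → p ∣ Λ → p ≠ 2 → ¬ p ∣ b) ∧ 1 ≤ δ ∧
      (∀ p : ℕ, p.Prime → p ∣ δ → p ∣ Λ) ∧ δ.factorization 2 < l ∧
      (∀ p : ℕ, p.Prime → p ≠ 2 → (δ.factorization p : ℝ) ≤ 2 * p * Real.log v) ∧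
      ∀ q : ℕ, (v : ZMod q) ^ b + (if τ = 0 then (u : ZMod q) ^ b else - (u : ZMod q) ^ b)
        = (δ : ZMod q) * (B : ZMod q) ^ l := by
      obtain ⟨hp, hm⟩ := hR u v k l A Λ hu huv hcop h2u h2v hk hl hL1 hL2
      rcases hEq with h | h
      · obtain ⟨b, δ, B, c1, c2, c3, c4, c5, c6, c7, c8⟩ := hp h
        refine ⟨0, by norm_num, b, δ, B, c1, c2, c3, c4, c5, c6, c7, fun q => ?_⟩
        rw [if_pos rfl]
        exact_mod_cast congrArg (fun z : ℕ => (z : ZMod q)) c8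
      · obtain ⟨b, δ, B, c1, c2, c3, c4, c5, c6, c7, c8⟩ := hm h
        refine ⟨1, by norm_num, b, δ, B, c1, c2, c3, c4, c5, c6, c7, fun q => ?_⟩
        rw [if_neg (by norm_num)]
        have h9 := congrArg (fun z : ℕ => (z : ZMod q)) c8
        push_cast at h9
        rw [h9]; ring
    obtain ⟨τ, hτ, b, δ, B, hb1, hbk, hbp, hδ1, hδL, hδ2, hδp, hq⟩ := hrel
    set κ' := (b - 1) % Λ + 1 with hκ'
    have hκΛ : κ' ≤ Λ := by
      have := Nat.mod_lt (b - 1) hL1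
      omega
    rw [hU, mem_coe, mem_biUnion]
    refine ⟨(l, k₀), ?_, ?_⟩
    · rw [mem_product, mem_Icc, mem_Icc]
      exact ⟨⟨hl.one_lt.le, hlK⟩, hk01, hk0K⟩
    rw [mem_biUnion]
    refine ⟨(κ', δ, τ), ?_, ?_⟩
    · rw [mem_filter, mem_product, mem_product, mem_Icc, mem_range]
      refine ⟨⟨⟨Nat.le_add_left 1 _, hκΛ⟩, ?_, hτ⟩, ?_⟩
      · have hf := hfin l k₀ hl.one_lt.le hlK hk01 hk0K
        show δ ∈ Δ l k₀
        rw [hΔ]
        simp only [hf, dif_pos]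
        rw [Set.Finite.mem_toFinset]
        refine ⟨hδ1, hδL, hδ2, fun p hp hp2 => (hδp p hp hp2).trans ?_⟩
        exact mul_le_mul_of_nonneg_left hlogv (by positivity)
      · refine ⟨hl, Nat.le_add_left 1 _, hSv, fun q hqQ => ?_⟩
        obtain ⟨hqp, hqu, hqL, hlq, hqL1⟩ := hQ l k₀ q hqQ
        refine ⟨hqp, hqu, fun h => hqL (hδL q hqp h), hlq, ?_⟩
        show 400 * Nat.gcd κ' (q - 1) ^ 2 ≤ q
        rw [hκ', gcd_red hL1 hqL1 hb1]
        refine le_trans ?_ (h400 q hqQ)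
        have hq1 : 0 < q - 1 := by have := hqp.two_le; omega
        have hgpos : 0 < Nat.gcd b (q - 1) := Nat.gcd_pos_of_pos_right _ hq1
        have hgM : Nat.gcd b (q - 1) ≤ M := by
          have h1 : Nat.gcd b (q - 1) ≤ Λ := (Nat.gcd_le_right _ hq1).trans (Nat.le_of_dvd hL1 hqL1)
          have h2 : (Λ : ℝ) ≤ M := by
            have h3 : (1 : ℝ) ≤ (10 * Real.log M) ^ Λ.primeFactors.card :=
              one_le_pow₀ (by linarith)
            calc (Λ : ℝ) = Λ * 1 := (mul_one _).symm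
              _ ≤ Λ * (10 * Real.log M) ^ Λ.primeFactors.card :=
                  mul_le_mul_of_nonneg_left h3 (Nat.cast_nonneg _)
              _ ≤ (M : ℝ) ^ κ := hLb
              _ ≤ (M : ℝ) ^ (1 : ℝ) := Real.rpow_le_rpow_of_exponent_le hM1 (by linarith)
              _ = M := Real.rpow_one _
          have h4 : Λ ≤ M := by exact_mod_cast h2
          omega
        have hdvd : Nat.gcd b (q - 1) ∣ Nat.gcd (2 ^ M) (q - 1) := by
          apply Nat.dvd_gcd _ (Nat.gcd_dvd_right _ _)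
          apply dvd_two_pow hgpos _ hgM
          intro p hp hpg
          by_contra hp2
          exact hbp p hp ((hpg.trans (Nat.gcd_dvd_right _ _)).trans hqL1) hp2
            (hpg.trans (Nat.gcd_dvd_left _ _))
        have hle : Nat.gcd b (q - 1) ≤ Nat.gcd (2 ^ M) (q - 1) :=
          Nat.le_of_dvd (Nat.gcd_pos_of_pos_right _ hq1) hdvd
        exact Nat.mul_le_mul_left _ (Nat.pow_le_pow_left hle 2)
    · show v ∈ FS M u (Q l k₀) l κ' δ τ
      unfold FS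
      rw [mem_filter, mem_Icc]
      refine ⟨⟨hv1, hvM⟩, fun q hqQ => ⟨(B : ZMod q), ?_⟩⟩
      obtain ⟨hqp, hqu, hqL, hlq, hqL1⟩ := hQ l k₀ q hqQ
      have h := hq q
      rw [pow_red hqp hL1 hqL1 hb1 (v : ZMod q), pow_red hqp hL1 hqL1 hb1 (u : ZMod q)] at h
      exact h
  -- the count
  have hUc : (U.card : ℝ) ≤ 2 * (M : ℝ) ^ (1 - 5 * κ) := by
    have h1 : (U.card : ℝ) ≤ ∑ p ∈ Icc 1 K ×ˢ Icc 1 K,
        2 * ((M : ℝ) ^ (3 * κ) * (M : ℝ) ^ (1 - 10 * κ)) := by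
      have h2 : (U.card : ℝ) ≤ ∑ p ∈ Icc 1 K ×ˢ Icc 1 K,
        ((((Icc 1 (L p.1 p.2) ×ˢ (Δ p.1 p.2 ×ˢ range 2)).filter
      (fun θ => Good p.1 p.2 θ.1 θ.2.1)).biUnion
      (fun θ => FS M u (Q p.1 p.2) p.1 θ.1 θ.2.1 θ.2.2)).card : ℝ) := by
        rw [hU]
        exact_mod_cast card_biUnion_le
      refine h2.trans (sum_le_sum fun p hp => ?_)
      rw [mem_product, mem_Icc, mem_Icc] at hp
      obtain ⟨⟨hp1, hpK⟩, hp2, hpK2⟩ := hp
      obtain ⟨hL1, hL2, hLb⟩ := hLL p.1 p.2 hp1 hpK hp2 hpK2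
      have h3 : ((((Icc 1 (L p.1 p.2) ×ˢ (Δ p.1 p.2 ×ˢ range 2)).filter
      (fun θ => Good p.1 p.2 θ.1 θ.2.1)).biUnion
      (fun θ => FS M u (Q p.1 p.2) p.1 θ.1 θ.2.1 θ.2.2)).card : ℝ) ≤
        ∑ θ ∈ (Icc 1 (L p.1 p.2) ×ˢ (Δ p.1 p.2 ×ˢ range 2)).filter
          (fun θ => Good p.1 p.2 θ.1 θ.2.1),
          ((FS M u (Q p.1 p.2) p.1 θ.1 θ.2.1 θ.2.2).card : ℝ) := by
        exact_mod_cast card_biUnion_le
      refine h3.trans ?_
      have h4 : ∑ θ ∈ (Icc 1 (L p.1 p.2) ×ˢ (Δ p.1 p.2 ×ˢ range 2)).filter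
          (fun θ => Good p.1 p.2 θ.1 θ.2.1),
          ((FS M u (Q p.1 p.2) p.1 θ.1 θ.2.1 θ.2.2).card : ℝ) ≤
          ∑ _θ ∈ (Icc 1 (L p.1 p.2) ×ˢ (Δ p.1 p.2 ×ˢ range 2)).filter
          (fun θ => Good p.1 p.2 θ.1 θ.2.1), (M : ℝ) ^ (1 - 10 * κ) := by
        apply sum_le_sum
        intro θ hθ
        obtain ⟨g1, g2, g3, g4⟩ := (mem_filter.mp hθ).2
        exact FS_card hL g3 g1 g2 g4
      refine h4.trans ?_
      rw [sum_const, nsmul_eq_mul, ← mul_assoc]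
      apply mul_le_mul_of_nonneg_right _ (by positivity)
      have h5 : (((Icc 1 (L p.1 p.2) ×ˢ (Δ p.1 p.2 ×ˢ range 2)).filter
          (fun θ => Good p.1 p.2 θ.1 θ.2.1)).card : ℝ) ≤
          (L p.1 p.2) * ((Δ p.1 p.2).card * 2) := by
        have h6 := card_filter_le (Icc 1 (L p.1 p.2) ×ˢ (Δ p.1 p.2 ×ˢ range 2))
          (fun θ => Good p.1 p.2 θ.1 θ.2.1)
        rw [card_product, card_product, Nat.card_Icc, card_range] at h6
        simp only [Nat.add_sub_cancel] at h6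
        exact_mod_cast h6
      refine h5.trans ?_
      have h7 := hΔc p.1 p.2 hp1 hpK hp2 hpK2
      have h8 : (1 : ℝ) ≤ (10 * Real.log M) ^ (L p.1 p.2).primeFactors.card :=
        one_le_pow₀ (by linarith)
      have h9 : ((L p.1 p.2 : ℕ) : ℝ) ≤ (M : ℝ) ^ κ := by
        refine le_trans ?_ hLb
        calc ((L p.1 p.2 : ℕ) : ℝ) = (L p.1 p.2) * 1 := (mul_one _).symm
          _ ≤ _ := mul_le_mul_of_nonneg_left h8 (Nat.cast_nonneg _)
      have h10 : (L p.1 p.2 : ℝ) * (3 * W) ^ (L p.1 p.2).primeFactors.card ≤ (M : ℝ) ^ κ := by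
        refine le_trans ?_ hLb
        apply mul_le_mul_of_nonneg_left _ (Nat.cast_nonneg _)
        apply pow_le_pow_left₀ (by positivity)
        rw [hW]; linarith
      have h11 : ((p.1 : ℕ) : ℝ) ≤ (M : ℝ) ^ κ := le_trans (by exact_mod_cast hpK) hK
      have hMκ : 0 ≤ (M : ℝ) ^ κ := by positivity
      have h12 : ((Δ p.1 p.2).card : ℝ) ≤ (M : ℝ) ^ κ * (M : ℝ) ^ κ :=
        h7.trans (mul_le_mul h11 h10 (by positivity) hMκ)
      have h13 : (M : ℝ) ^ (3 * κ) = (M : ℝ) ^ κ * ((M : ℝ) ^ κ * (M : ℝ) ^ κ) := by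
        rw [← Real.rpow_add hMpos, ← Real.rpow_add hMpos]
        congr 1; ring
      rw [h13]
      calc (L p.1 p.2 : ℝ) * ((Δ p.1 p.2).card * 2)
          ≤ (M : ℝ) ^ κ * (((M : ℝ) ^ κ * (M : ℝ) ^ κ) * 2) := by
            apply mul_le_mul h9 _ (mul_nonneg (Nat.cast_nonneg _) (by norm_num)) hMκ
            exact mul_le_mul_of_nonneg_right h12 (by norm_num)
        _ = 2 * ((M : ℝ) ^ κ * ((M : ℝ) ^ κ * (M : ℝ) ^ κ)) := by ring
    refine h1.trans ?_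
    rw [sum_const, nsmul_eq_mul, card_product, Nat.card_Icc, Nat.add_sub_cancel, Nat.cast_mul]
    have h14 : (K : ℝ) * K ≤ (M : ℝ) ^ (2 * κ) := by
      have : (M : ℝ) ^ (2 * κ) = (M : ℝ) ^ κ * (M : ℝ) ^ κ := by
        rw [← Real.rpow_add hMpos]; congr 1; ring
      rw [this]
      exact mul_le_mul hK hK (Nat.cast_nonneg _) (by positivity)
    calc (K : ℝ) * K * (2 * ((M : ℝ) ^ (3 * κ) * (M : ℝ) ^ (1 - 10 * κ)))
        ≤ (M : ℝ) ^ (2 * κ) * (2 * ((M : ℝ) ^ (3 * κ) * (M : ℝ) ^ (1 - 10 * κ))) :=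
          mul_le_mul_of_nonneg_right h14 (by positivity)
      _ = 2 * (M : ℝ) ^ (1 - 5 * κ) := by
          rw [show (1 - 5 * κ : ℝ) = 2 * κ + (3 * κ + (1 - 10 * κ)) by ring,
            Real.rpow_add hMpos, Real.rpow_add hMpos (3 * κ)]
          ring
  have h1 : (VS e M u).ncard ≤ U.card := by
    have := Set.ncard_le_ncard hsub (Finset.finite_toSet _)
    rwa [Set.ncard_coe_finset] at this
  exact (by exact_mod_cast h1 : ((VS e M u).ncard : ℝ) ≤ U.card).trans hUc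

lemma VS_fin (e : ℝ) (M u : ℕ) : (VS e M u).Finite :=
  (Set.finite_Icc 1 M).subset (fun _ hv => ⟨hv.1, hv.2.1⟩)

/-- the numerical facts -/
lemma svo_num (e κ : ℝ) (M₀ : ℕ) (he0 : 0 < e) (he1 : e < 1 / 2) (hκ : 0 < κ) :
    ∃ x₀ : ℝ, ∀ x : ℝ, x₀ ≤ x → 6 * Real.log 2 ≤ x ∧ 3 * (M₀ : ℝ) ≤ x ∧
      x ≤ Real.exp ((x / 3) ^ (1 - e)) ∧ x ^ (1 - 2 * e) ≤ (x / 3) ^ (1 - e) ∧
      2 * (1 + x) ≤ Real.exp (3 / 2 * κ * x) := by
  have e1 := eventually_ge_atTop (max (max (6 * Real.log 2) (3 * (M₀ : ℝ))) 3)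
  have e2 : ∀ᶠ x : ℝ in atTop, x ≤ Real.exp ((x / 3) ^ (1 - e)) := by
    have h1 := ((isLittleO_log_rpow_atTop (show (0 : ℝ) < 1 - e by linarith)).bound
      (show (0 : ℝ) < (1 / 3 : ℝ) ^ (1 - e) by positivity))
    filter_upwards [h1, eventually_ge_atTop 1] with x h1 hx
    have hx0 : 0 < x := by linarith
    rw [← Real.log_le_iff_le_exp hx0]
    have hlx : 0 ≤ Real.log x := Real.log_nonneg hx
    rw [Real.norm_of_nonneg hlx, Real.norm_of_nonneg (by positivity)] at h1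
    rw [show x / 3 = (1 / 3) * x by ring, Real.mul_rpow (by norm_num) hx0.le]
    exact h1
  have e3 : ∀ᶠ x : ℝ in atTop, x ^ (1 - 2 * e) ≤ (x / 3) ^ (1 - e) := by
    have h1 := (tendsto_rpow_atTop he0).eventually_ge_atTop ((3 : ℝ) ^ (1 - e))
    filter_upwards [h1, eventually_ge_atTop 1] with x h1 hx
    have hx0 : 0 < x := by linarith
    rw [Real.div_rpow hx0.le (by norm_num), le_div_iff₀ (by positivity)]
    calc x ^ (1 - 2 * e) * 3 ^ (1 - e) ≤ x ^ (1 - 2 * e) * x ^ e :=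
          mul_le_mul_of_nonneg_left h1 (by positivity)
      _ = x ^ (1 - e) := by rw [← Real.rpow_add hx0]; congr 1; ring
  have e4 : ∀ᶠ x : ℝ in atTop, 2 * (1 + x) ≤ Real.exp (3 / 2 * κ * x) := by
    have h1 : ∀ᶠ x : ℝ in atTop, ‖x ^ (1 : ℝ)‖ ≤ 1 / 4 * ‖Real.exp (3 / 2 * κ * x)‖ :=
      (isLittleO_rpow_exp_pos_mul_atTop 1 (show 0 < 3 / 2 * κ by positivity)).bound (by norm_num)
    filter_upwards [h1, eventually_ge_atTop 1] with x h1 hx
    have hx0 : 0 < x := by linarith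
    rw [Real.rpow_one, Real.norm_of_nonneg hx0.le, Real.norm_of_nonneg (Real.exp_pos _).le] at h1
    linarith
  obtain ⟨x₀, h⟩ := eventually_atTop.mp (e1.and (e2.and (e3.and e4)))
  refine ⟨x₀, fun x hx => ?_⟩
  obtain ⟨h1, h2, h3, h4⟩ := h x hx
  refine ⟨?_, ?_, h2, h3, h4⟩
  · exact ((le_max_left _ _).trans (le_max_left _ _)).trans h1
  · exact ((le_max_right _ _).trans (le_max_left _ _)).trans h1

theorem svo : Stmt_Gen → MP_2738db_nt_U.Stmt_Loc → Stmt_Red → Stmt_Ndl → Stmt_Svo := by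
  classical
  intro hG hL hR hN ε hε0 hε1
  set e := ε / 2 with he
  have he0 : 0 < e := by positivity
  have he2 : e < 1 / 2 := by rw [he]; linarith
  obtain ⟨κ, hκ0, hκ1, M₀, hM⟩ := vs_card hG hL hR hN e he0 (by linarith)
  obtain ⟨x₀, hx₀⟩ := svo_num e κ M₀ he0 he2 hκ0
  refine ⟨κ, hκ0, ⌈Real.exp (max x₀ 1)⌉₊, ?_⟩
  intro N hN₀
  have hNexp : Real.exp (max x₀ 1) ≤ N := (Nat.le_ceil _).trans (by exact_mod_cast hN₀)
  have hNpos : (0 : ℝ) < N := lt_of_lt_of_le (Real.exp_pos _) hNexp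
  have hN0 : 0 < N := by exact_mod_cast hNpos
  set x := Real.log N with hx
  have hxx : max x₀ 1 ≤ x := by rw [hx, Real.le_log_iff_exp_le hNpos]; exact hNexp
  have hx1 : 1 ≤ x := (le_max_right _ _).trans hxx
  obtain ⟨n1, n2, n3, n4, n5⟩ := hx₀ x ((le_max_left _ _).trans hxx)
  set s := Nat.sqrt N with hs
  have hs1 : 1 ≤ s := by rw [hs, Nat.one_le_iff_ne_zero, Ne, Nat.sqrt_eq_zero]; omega
  have hNe : (N : ℝ) = Real.exp x := by rw [hx, Real.exp_log hNpos]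
  -- the lower bound for `M`
  have hlogs : x / 3 ≤ Real.log s := by
    have h1 : N < (s + 1) * (s + 1) := Nat.lt_succ_sqrt N
    have h2 : (N : ℝ) ≤ 4 * (s : ℝ) ^ 2 := by
      have h3 : N ≤ 4 * s ^ 2 := by nlinarith
      exact_mod_cast h3
    have hs0 : (0 : ℝ) < s := by exact_mod_cast hs1
    have h4 : x ≤ 2 * Real.log 2 + 2 * Real.log s := by
      have h5 := Real.log_le_log hNpos h2
      rw [Real.log_mul (by norm_num) (by positivity), Real.log_pow,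
        show (4 : ℝ) = 2 ^ 2 by norm_num, Real.log_pow] at h5
      push_cast at h5
      exact h5
    linarith
  have hMs : ∀ u : ℕ, 1 ≤ u → u ≤ s → s ≤ N / u := by
    intro u h1 h2
    rw [Nat.le_div_iff_mul_le (by omega)]
    calc s * u ≤ s * s := Nat.mul_le_mul_left _ h2
      _ ≤ N := Nat.sqrt_le N
  have hlM : ∀ u : ℕ, 1 ≤ u → u ≤ s → x / 3 ≤ Real.log ((N / u : ℕ) : ℝ) := by
    intro u h1 h2
    refine hlogs.trans (Real.log_le_log (by exact_mod_cast hs1) (by exact_mod_cast hMs u h1 h2))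
  set U : Finset ℕ := (Icc 1 s).biUnion
    (fun u => (VS_fin e (N / u) u).toFinset.image (fun v => u * v)) with hU
  have hsub : {c : ℕ | 1 ≤ c ∧ c ≤ N ∧ ∃ u v k l A : ℕ, c = u * v ∧ 1 ≤ u ∧ u < v ∧
      Nat.Coprime u v ∧ ¬ 2 ∣ u ∧ ¬ 2 ∣ v ∧ 1 ≤ k ∧ l.Prime ∧
      Real.log l ≤ Real.log N ^ (1 - ε) ∧ EqO u v k l A} ⊆ ↑U := by
    rintro c ⟨hc1, hcN, u, v, k, l, A, hcuv, hu, huv, hcop, h2u, h2v, hk, hl, hlog, hEq⟩
    have hus : u ≤ s := by
      rw [hs, Nat.le_sqrt]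
      calc u * u ≤ u * v := Nat.mul_le_mul_left _ huv.le
        _ ≤ N := by omega
    rw [hU, mem_coe, mem_biUnion]
    refine ⟨u, mem_Icc.mpr ⟨hu, hus⟩, ?_⟩
    rw [mem_image]
    refine ⟨v, ?_, hcuv.symm⟩
    rw [Set.Finite.mem_toFinset]
    refine ⟨by omega, ?_, huv, hcop, h2u, h2v, k, l, A, hk, hl, ?_, hEq⟩
    · rw [Nat.le_div_iff_mul_le (by omega), mul_comm]
      omega
    · refine hlog.trans ?_
      have h1 : 1 - ε = 1 - 2 * e := by rw [he]; ring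
      rw [h1]
      refine n4.trans (Real.rpow_le_rpow (by positivity) (hlM u hu hus) (by linarith))
  have hcard : (U.card : ℝ) ≤ ∑ u ∈ Icc 1 s, 2 * ((N / u : ℕ) : ℝ) ^ (1 - 5 * κ) := by
    have h1 : (U.card : ℝ) ≤ ∑ u ∈ Icc 1 s, (((VS_fin e (N / u) u).toFinset.image
        (fun v => u * v)).card : ℝ) := by
      rw [hU]
      exact_mod_cast card_biUnion_le
    refine h1.trans (sum_le_sum fun u hu => ?_)
    rw [mem_Icc] at hu
    have h2 : (((VS_fin e (N / u) u).toFinset.image (fun v => u * v)).card : ℝ)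
        ≤ ((VS e (N / u) u).ncard : ℝ) := by
      rw [Set.ncard_eq_toFinset_card _ (VS_fin e (N / u) u)]
      exact_mod_cast card_image_le
    refine h2.trans (hM (N / u) u ?_ hu.1 ?_)
    · have h3 := hMs u hu.1 hu.2
      have h4 : (M₀ : ℝ) ≤ s := by
        have h5 : Real.log s ≤ s := Real.log_le_self (Nat.cast_nonneg _)
        linarith
      have h6 : M₀ ≤ s := by exact_mod_cast h4
      omega
    · have h3 : Real.log u ≤ x := by
        apply Real.log_le_log (by exact_mod_cast hu.1)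
        have : u ≤ N := hu.2.trans (Nat.sqrt_le_self N)
        exact_mod_cast this
      refine h3.trans (n3.trans (Real.exp_le_exp.2 ?_))
      exact Real.rpow_le_rpow (by positivity) (hlM u hu.1 hu.2) (by linarith)
  have hsum : ∑ u ∈ Icc 1 s, 2 * ((N / u : ℕ) : ℝ) ^ (1 - 5 * κ) ≤ (N : ℝ) ^ (1 - κ) := by
    have hsr : (s : ℝ) ≤ Real.exp (x / 2) := by
      have h1 : (s : ℝ) ^ 2 ≤ N := by
        have := Nat.sqrt_le N
        rw [pow_two]
        exact_mod_cast this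
      rw [hNe, show Real.exp x = Real.exp (x / 2) ^ 2 by rw [← Real.exp_nat_mul]; congr 1; push_cast; ring] at h1
      exact le_of_sq_le_sq h1 (Real.exp_pos _).le
    have h1 : ∀ u ∈ Icc 1 s, 2 * ((N / u : ℕ) : ℝ) ^ (1 - 5 * κ)
        ≤ (2 * Real.exp ((1 - 5 / 2 * κ) * x)) * (u : ℝ)⁻¹ := by
      intro u hu
      rw [mem_Icc] at hu
      have hu0 : (0 : ℝ) < u := by exact_mod_cast hu.1
      have h2 : ((N / u : ℕ) : ℝ) ≤ N / u := Nat.cast_div_le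
      have h3 : ((N / u : ℕ) : ℝ) ^ (1 - 5 * κ) ≤ ((N : ℝ) / u) ^ (1 - 5 * κ) :=
        Real.rpow_le_rpow (Nat.cast_nonneg _) h2 (by linarith)
      have h4 : Real.exp (x / 2) ≤ (N : ℝ) / u := by
        rw [le_div_iff₀ hu0]
        have h5 : (u : ℝ) ≤ Real.exp (x / 2) := le_trans (by exact_mod_cast hu.2) hsr
        calc Real.exp (x / 2) * u ≤ Real.exp (x / 2) * Real.exp (x / 2) :=
              mul_le_mul_of_nonneg_left h5 (Real.exp_pos _).le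
          _ = N := by rw [← Real.exp_add, hNe]; congr 1; ring
      have hNu : (0 : ℝ) < N / u := by positivity
      have h6 : ((N : ℝ) / u) ^ (1 - 5 * κ) ≤ (N / u) * Real.exp (-(5 / 2 * κ * x)) := by
        rw [show (1 - 5 * κ : ℝ) = 1 + -(5 * κ) by ring, Real.rpow_add hNu, Real.rpow_one]
        apply mul_le_mul_of_nonneg_left _ hNu.le
        rw [Real.rpow_neg hNu.le, Real.exp_neg]
        apply inv_anti₀ (Real.exp_pos _)
        calc Real.exp (5 / 2 * κ * x) = Real.exp (x / 2) ^ (5 * κ) := by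
              rw [← Real.exp_mul]; congr 1; ring
          _ ≤ _ := Real.rpow_le_rpow (Real.exp_pos _).le h4 (by linarith)
      calc 2 * ((N / u : ℕ) : ℝ) ^ (1 - 5 * κ) ≤ 2 * ((N / u) * Real.exp (-(5 / 2 * κ * x))) := by
            linarith
        _ = (2 * Real.exp ((1 - 5 / 2 * κ) * x)) * (u : ℝ)⁻¹ := by
            rw [show (1 - 5 / 2 * κ) * x = x + -(5 / 2 * κ * x) by ring, Real.exp_add, ← hNe]
            field_simp
    refine (sum_le_sum h1).trans ?_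
    rw [← mul_sum]
    have h7 : ∑ u ∈ Icc 1 s, (u : ℝ)⁻¹ ≤ 1 + x := by
      have h8 := harmonic_le_one_add_log s
      rw [harmonic_eq_sum_Icc] at h8
      push_cast at h8
      refine h8.trans ?_
      have h9 : Real.log s ≤ x := by
        apply Real.log_le_log (by exact_mod_cast hs1)
        exact_mod_cast Nat.sqrt_le_self N
      linarith
    calc 2 * Real.exp ((1 - 5 / 2 * κ) * x) * ∑ u ∈ Icc 1 s, (u : ℝ)⁻¹
        ≤ 2 * Real.exp ((1 - 5 / 2 * κ) * x) * (1 + x) :=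
          mul_le_mul_of_nonneg_left h7 (by positivity)
      _ = Real.exp ((1 - 5 / 2 * κ) * x) * (2 * (1 + x)) := by ring
      _ ≤ Real.exp ((1 - 5 / 2 * κ) * x) * Real.exp (3 / 2 * κ * x) :=
          mul_le_mul_of_nonneg_left n5 (Real.exp_pos _).le
      _ = (N : ℝ) ^ (1 - κ) := by
          rw [hNe, ← Real.exp_add, ← Real.exp_mul]
          congr 1; ring
  have h1 : ({c : ℕ | 1 ≤ c ∧ c ≤ N ∧ ∃ u v k l A : ℕ, c = u * v ∧ 1 ≤ u ∧ u < v ∧
      Nat.Coprime u v ∧ ¬ 2 ∣ u ∧ ¬ 2 ∣ v ∧ 1 ≤ k ∧ l.Prime ∧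
      Real.log l ≤ Real.log N ^ (1 - ε) ∧ EqO u v k l A}.ncard) ≤ U.card := by
    have := Set.ncard_le_ncard hsub (Finset.finite_toSet _)
    rwa [Set.ncard_coe_finset] at this
  exact (show _ ≤ _ by exact_mod_cast h1).trans (hcard.trans hsum)

end Pool.Agent.Work.MP_2738db_nt_C.helper40
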